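import Pool.Agent.Q143.EI.Hnn
import Pool.Agent.Q143.AR.Mem

/-!
# Amalgamated products with a homomorphism that is injective on the amalgamated subgroup
-/

set_option autoImplicit false
set_option linter.unusedSectionVars false
set_option linter.style.haveILetI false

namespace Pool.Agent.Q143.EI

open Monoid Pool.Agent.Y462.SS Pool.Agent.Q152.WP Pool.Agent.Q105.FJ Pool.Agent.Q152.EM
  Pool.Agent.Q143.AR

variable {C : ∀ (G : Type) [Group G], Prop}

/-! ## direct sums -/

section sum

variable {ι : Type} (A : ι → Type) [∀ i, Group (A i)]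

/-- the direct sum -/
def Ds : Subgroup (∀ i, A i) where
  carrier := {x | {i | x i ≠ 1}.Finite}
  one_mem' := by simp
  mul_mem' := by
    intro a b ha hb
    refine (Set.Finite.union ha hb).subset ?_
    intro i hi
    by_contra hc
    simp only [Set.mem_union, Set.mem_ofPred_eq, not_or, not_not] at hc
    refine hi ?_
    change a i * b i = 1
    rw [hc.1, hc.2, one_mul]
  inv_mem' := by
    intro a ha
    refine Set.Finite.subset ha ?_
    intro i hi
    by_contra hc
    simp only [Set.mem_ofPred_eq, not_not] at hc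
    refine hi ?_
    change (a i)⁻¹ = 1
    rw [hc, inv_one]

/-- the elements with support in a finite set -/
def DsF (S : Finset ι) : Subgroup (Ds A) where
  carrier := {x | ∀ i, i ∉ S → x.1 i = 1}
  one_mem' := fun _ _ => rfl
  mul_mem' := by
    intro a b ha hb i hi
    change a.1 i * b.1 i = 1
    rw [ha i hi, hb i hi, one_mul]
  inv_mem' := by
    intro a ha i hi
    change (a.1 i)⁻¹ = 1
    rw [ha i hi, inv_one]

theorem Ds_mem (hC : Closed C) (hA : ∀ i, C (A i)) : C (Ds A) := by
  classical
  refine Pool.Agent.Y430.SS.of_directed hC _ (Finset ι) (fun i j => ⟨i ∪ j,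
      Finset.subset_union_left, Finset.subset_union_right⟩) (fun S => DsF A S)
      (fun S T hST x hx i hi => hx i (fun h => hi (hST h))) (fun g => ?_) (fun S => ?_)
  · refine ⟨Set.Finite.toFinset g.2, fun i hi => ?_⟩
    by_contra hc
    exact hi ((Set.Finite.mem_toFinset _).2 hc)
  · refine hC.of_injective _ (∀ i : S, A i)
      { toFun := fun x i => x.1.1 i
        map_one' := rfl
        map_mul' := fun _ _ => rfl } ?_ (C_pi hC _ _ (fun i => hA i))
    intro a b hab
    refine Subtype.ext (Subtype.ext (funext fun i => ?_))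
    by_cases hi : i ∈ S
    · exact congrFun hab ⟨i, hi⟩
    · rw [a.2 i hi, b.2 i hi]

open Classical in
/-- the inclusion of a summand -/
noncomputable def inD (i : ι) : A i →* Ds A where
  toFun a := ⟨Pi.mulSingle i a, (Set.finite_singleton i).subset (fun j hj => by
    by_contra hc
    exact hj (Pi.mulSingle_eq_of_ne hc a))⟩
  map_one' := Subtype.ext (Pi.mulSingle_one i)
  map_mul' a b := Subtype.ext (Pi.mulSingle_mul i a b)

theorem inD_injective (i : ι) : Function.Injective (inD A i) := by
  classical
  intro a b hab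
  exact Pi.mulSingle_injective i (congrArg Subtype.val hab)

end sum

section fam

variable {ι Z K : Type} [Group K]

/-- families of elements of the wreath product -/
def Fam : (ι → Wr Z K) →* Wr (ι × Z) K where
  toFun w := ⟨fun x => (w x.1).s x.2,
    { toFun := fun x => (x.1, (w x.1).p x.2)
      invFun := fun x => (x.1, (w x.1).p.symm x.2)
      left_inv := fun x => Prod.ext rfl ((w x.1).p.symm_apply_apply x.2)
      right_inv := fun x => Prod.ext rfl ((w x.1).p.apply_symm_apply x.2) }⟩
  map_one' := rfl
  map_mul' _ _ := Wr.ext rfl (Equiv.ext fun _ => rfl)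

theorem Fam_mem (w : ι → Wr Z K) (j : ι) (hj : w j ∈ Nf Z K) (h : ∀ i, i ≠ j → w i = 1) :
    Fam w ∈ Nf (ι × Z) K := by
  obtain ⟨hp, hs⟩ := hj
  refine ⟨Equiv.ext ?_, (hs.image (Prod.mk j)).subset ?_⟩
  · rintro ⟨i, z⟩
    change (i, (w i).p z) = (i, z)
    by_cases hi : i = j
    · subst hi
      rw [hp]
      rfl
    · rw [h i hi]
      rfl
  · rintro ⟨i, z⟩ hz
    change (w i).s z ≠ 1 at hz
    by_cases hi : i = j
    · subst hi
      exact ⟨z, hz, rfl⟩
    · rw [h i hi] at hz
      exact (hz rfl).elim

end fam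

section push

variable {ι Q K : Type} [Group Q] [Group K] (E : Subgroup Q) (τ : ι → E →* K)

/-- the action which is conjugate by the shift -/
noncomputable def Lc (i : ι) : Q →* Wr (Y E) K :=
  (MulAut.conj (Th (K := K) E)⁻¹).toMonoidHom.comp ((L E (τ i) 1).comp (MonoidHom.inr K Q))

theorem Lc_apply (i : ι) (q : Q) :
    Lc E τ i q = (Th E)⁻¹ * L E (τ i) 1 (1, q) * Th E := by
  change (Th E)⁻¹ * L E (τ i) 1 (1, q) * (Th E)⁻¹⁻¹ = _
  rw [inv_inv]

theorem Lc_base (i : ι) (e : E) : Lc E τ i e = L E (τ i) 1 (τ i e, (e : Q)) := by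
  rw [Lc_apply, mul_assoc, inv_mul_eq_iff_eq_mul]
  exact (Th_L E (τ i) 1 e).symm

open Classical in
/-- the family of actions -/
noncomputable def Vf (j : ι) : K × Q →* (ι → Wr (Y E) K) where
  toFun x i := if i = j then L E (τ i) 1 x else Lc E τ i x.2
  map_one' := by
    funext i
    split_ifs
    · exact map_one _
    · exact map_one _
  map_mul' x y := by
    funext i
    rw [Pi.mul_apply]
    split_ifs
    · exact map_mul _ _ _
    · exact map_mul _ _ _

theorem Vf_self (j : ι) (x : K × Q) : Vf E τ j x j = L E (τ j) 1 x := if_pos rfl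

theorem Vf_ne (j i : ι) (x : K × Q) (h : i ≠ j) : Vf E τ j x i = Lc E τ i x.2 := if_neg h

/-- the action -/
noncomputable def V (j : ι) : K × Q →* Wr (ι × Y E) K := Fam.comp (Vf E τ j)

/-- the action of the amalgamated group -/
noncomputable def U : E →* Wr (ι × Y E) K :=
  Fam.comp (MonoidHom.mk' (fun (e : E) (i : ι) => L E (τ i) 1 (τ i e, (e : Q))) (by
    intro a b
    funext i
    change L E (τ i) 1 (τ i (a * b), ((a * b : E) : Q)) =
      L E (τ i) 1 (τ i a, (a : Q)) * L E (τ i) 1 (τ i b, (b : Q))
    rw [← map_mul, map_mul (τ i)]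
    rfl))

theorem V_base (j : ι) (e : E) : V E τ j (τ j e, (e : Q)) = U E τ e := by
  change Fam (Vf E τ j (τ j e, (e : Q))) = Fam _
  congr 1
  funext i
  change _ = L E (τ i) 1 (τ i e, (e : Q))
  by_cases h : i = j
  · subst h
    rw [Vf_self]
  · rw [Vf_ne _ _ _ _ _ h]
    exact Lc_base E τ i e

theorem V_mem (j : ι) (k : K) : V E τ j (k, 1) ∈ Nf (ι × Y E) K := by
  refine Fam_mem (Vf E τ j (k, 1)) j ?_ ?_
  · rw [Vf_self]
    exact L_mem E (τ j) 1 k
  · intro i hi
    rw [Vf_ne _ _ _ _ _ hi]
    exact map_one _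

theorem mk_V (j : ι) (k : K) (q : Q) : (QuotientGroup.mk' (Nf (ι × Y E) K)) (V E τ j (k, q)) =
    (QuotientGroup.mk' (Nf (ι × Y E) K)) (V E τ j (1, q)) := by
  have h1 : (k, q) = ((1 : K), q) * (k, (1 : Q)) := by simp
  rw [h1, map_mul, map_mul]
  have h2 : (QuotientGroup.mk' (Nf (ι × Y E) K)) (V E τ j (k, 1)) = 1 :=
    (QuotientGroup.eq_one_iff _).2 (V_mem E τ j k)
  rw [h2, mul_one]

end push

section main

variable {ι H Q K : Type} {A : ι → Type} [∀ i, Group (A i)] [Group H] [Group Q] [Group K]
  {φ : ∀ i, H →* A i} (f : ∀ i, A i →* Q) (k : H →* Q) (hfk : ∀ i, (f i).comp (φ i) = k)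
  (hk : Function.Injective k) (u : ∀ i, A i →* K)

/-- the sections -/
noncomputable def ta (φ : ∀ i, H →* A i) (i : ι) : k.range →* K :=
  ((u i).comp (φ i)).comp (MonoidHom.ofInjective hk).symm.toMonoidHom

theorem ta_apply (i : ι) (h : H) :
    ta k hk u φ i (MonoidHom.ofInjective hk h) = u i (φ i h) := by
  change u i (φ i ((MonoidHom.ofInjective hk).symm (MonoidHom.ofInjective hk h))) = _
  rw [MulEquiv.symm_apply_apply]

/-- the homomorphism to the wreath product -/
noncomputable def Jp : PushoutI φ →* Wr (ι × Y k.range) K :=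
  PushoutI.lift (fun i => (V k.range (ta k hk u φ) i).comp ((u i).prod (f i)))
    ((U k.range (ta k hk u φ)).comp (MonoidHom.ofInjective hk).toMonoidHom) (by
      intro i
      refine MonoidHom.ext fun h => ?_
      have h1 := V_base k.range (ta k hk u φ) i (MonoidHom.ofInjective hk h)
      rw [ta_apply] at h1
      have h2 : ((MonoidHom.ofInjective hk h : k.range) : Q) = f i (φ i h) := by
        change k h = _
        rw [← hfk i]
        rfl
      rw [h2] at h1
      exact h1)

/-- the homomorphism to the amalgamated product of copies of `Q` -/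
noncomputable def Fp : PushoutI φ →* PushoutI (fun _ : ι => k.range.subtype) :=
  PushoutI.lift (fun i => (PushoutI.of (φ := fun _ : ι => k.range.subtype) i).comp (f i))
    ((PushoutI.base _).comp (MonoidHom.ofInjective hk).toMonoidHom) (by
      intro i
      refine MonoidHom.ext fun h => ?_
      have h1 := PushoutI.of_apply_eq_base (fun _ : ι => k.range.subtype) i
        (MonoidHom.ofInjective hk h)
      have h2 : k.range.subtype (MonoidHom.ofInjective hk h) = f i (φ i h) := by
        change k h = _
        rw [← hfk i]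
        rfl
      rw [h2] at h1
      exact h1)

/-- the homomorphism modulo the elements of finite support -/
noncomputable def Dp : PushoutI (fun _ : ι => k.range.subtype) →*
    Wr (ι × Y k.range) K ⧸ Nf (ι × Y k.range) K :=
  PushoutI.lift (fun i => (QuotientGroup.mk' _).comp
    ((V k.range (ta k hk u φ) i).comp (MonoidHom.inr K Q)))
    ((QuotientGroup.mk' _).comp (U k.range (ta k hk u φ))) (by
      intro i
      refine MonoidHom.ext fun e => ?_
      change QuotientGroup.mk' _ (V k.range (ta k hk u φ) i (1, (e : Q))) =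
        QuotientGroup.mk' _ (U k.range (ta k hk u φ) e)
      rw [← V_base k.range (ta k hk u φ) i e]
      exact (mk_V _ _ i _ _).symm)

theorem compat_p : (Dp (φ := φ) k hk u).comp (Fp f k hfk hk) =
    (QuotientGroup.mk' _).comp (Jp f k hfk hk u) := by
  refine PushoutI.hom_ext (fun i => MonoidHom.ext fun g => ?_) (MonoidHom.ext fun h => ?_)
  · have h1 : Fp f k hfk hk (PushoutI.of i g) = PushoutI.of i (f i g) := PushoutI.lift_of _ _ _ _
    have h2 : Jp f k hfk hk u (PushoutI.of i g) = V k.range (ta k hk u φ) i (u i g, f i g) :=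
      PushoutI.lift_of _ _ _ _
    have h3 : Dp (φ := φ) k hk u (PushoutI.of i (f i g)) =
      QuotientGroup.mk' _ (V k.range (ta k hk u φ) i (1, f i g)) := PushoutI.lift_of _ _ _ _
    change Dp (φ := φ) k hk u (Fp f k hfk hk (PushoutI.of i g)) =
      QuotientGroup.mk' _ (Jp f k hfk hk u (PushoutI.of i g))
    rw [h1, h2, h3]
    exact (mk_V _ _ i _ _).symm
  · have h1 : Fp f k hfk hk (PushoutI.base φ h) =
      PushoutI.base _ (MonoidHom.ofInjective hk h) := PushoutI.lift_base _ _ _ _
    have h2 : Jp f k hfk hk u (PushoutI.base φ h) =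
      U k.range (ta k hk u φ) (MonoidHom.ofInjective hk h) := PushoutI.lift_base _ _ _ _
    have h3 : Dp (φ := φ) k hk u (PushoutI.base _ (MonoidHom.ofInjective hk h)) =
      QuotientGroup.mk' _ (U k.range (ta k hk u φ) (MonoidHom.ofInjective hk h)) :=
        PushoutI.lift_base _ _ _ _
    change Dp (φ := φ) k hk u (Fp f k hfk hk (PushoutI.base φ h)) =
      QuotientGroup.mk' _ (Jp f k hfk hk u (PushoutI.base φ h))
    rw [h1, h2, h3]

/-- **Amalgamated products with a homomorphism to a group of the class which is injective on the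
amalgamated subgroup.** -/
theorem push_edge (hC : Closed C) (hE : ExtClosed C) [Nonempty ι]
    (hφ : ∀ i, Function.Injective (φ i)) (hA : ∀ i, C (A i)) (hQ : C Q)
    (f : ∀ i, A i →* Q) (k : H →* Q) (hfk : ∀ i, (f i).comp (φ i) = k)
    (hk : Function.Injective k) : C (PushoutI φ) := by
  have hP : C (PushoutI (fun _ : ι => k.range.subtype)) :=
    pushout_mem hC hE (fun _ => k.range.subtype_injective) (fun _ => MonoidHom.id Q)
      (fun _ => fun a b h => h) k.range.subtype (fun _ => rfl) hQ
  have hW := range_mem hC hE (Ds_mem A hC hA) hP (Jp f k hfk hk (inD A)) (Fp f k hfk hk)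
    (fun γ hγ => by
      have h1 := DFunLike.congr_fun (compat_p f k hfk hk (inD A)) γ
      change Dp (φ := φ) k hk (inD A) (Fp f k hfk hk γ) =
        QuotientGroup.mk' _ (Jp f k hfk hk (inD A) γ) at h1
      rw [hγ, map_one] at h1
      exact (QuotientGroup.eq_one_iff _).1 h1.symm)
  let r := ((Jp f k hfk hk (inD A)).prod (Fp f k hfk hk)).rangeRestrict
  refine pushout_mem hC hE hφ (fun i => r.comp (PushoutI.of i)) (fun i => ?_)
    (r.comp (PushoutI.base φ)) (fun i => ?_) hW
  · intro a b hab
    have h1 : Jp f k hfk hk (inD A) (PushoutI.of i a) = Jp f k hfk hk (inD A) (PushoutI.of i b) :=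
      congrArg (fun w => (Subtype.val w).1) hab
    have h2 : ∀ g, Jp f k hfk hk (inD A) (PushoutI.of i g) =
      V k.range (ta k hk (inD A) φ) i (inD A i g, f i g) := fun g => PushoutI.lift_of _ _ _ _
    have h3 : ∀ g, (V k.range (ta k hk (inD A) φ) i (inD A i g, f i g)).s (i, none) =
        inD A i g := by
      intro g
      change (Vf k.range (ta k hk (inD A) φ) i (inD A i g, f i g) i).s none = _
      rw [Vf_self]
      rfl
    rw [h2, h2] at h1
    have h4 := congrArg (fun w => Wr.s w (i, none)) h1
    change (V k.range (ta k hk (inD A) φ) i (inD A i a, f i a)).s (i, none) =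
      (V k.range (ta k hk (inD A) φ) i (inD A i b, f i b)).s (i, none) at h4
    rw [h3, h3] at h4
    exact inD_injective A i h4
  · rw [MonoidHom.comp_assoc, PushoutI.of_comp_eq_base]

end main

end Pool.Agent.Q143.EI
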