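import Pool.Agent.Q143.EI.Ray

/-!
# HNN extensions with a homomorphism that is injective on the edge group
-/

set_option autoImplicit false
set_option linter.unusedSectionVars false
set_option linter.style.haveILetI false

namespace Pool.Agent.Q143.EI

open Pool.Agent.Y462.SS Pool.Agent.Q152.WP Pool.Agent.Q105.FJ Pool.Agent.Q152.EM

variable {C : ∀ (G : Type) [Group G], Prop}

section ext

variable {Z K P : Type} [Group K] [Group P]

/-- the group `P` acts on itself, with trivial labels -/
def exw : Wr Z K × P →* Wr (Z ⊕ P) K where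
  toFun w := ⟨Sum.elim w.1.s (fun _ => 1), Equiv.sumCongr w.1.p (Equiv.mulLeft w.2)⟩
  map_one' := by
    refine Wr.ext (funext ?_) (Equiv.ext ?_)
    · rintro (z | p) <;> rfl
    · rintro (z | p)
      · rfl
      · exact congrArg Sum.inr (one_mul p)
  map_mul' a b := by
    refine Wr.ext (funext ?_) (Equiv.ext ?_)
    · rintro (z | p)
      · rfl
      · exact (one_mul (1 : K)).symm
    · rintro (z | p)
      · rfl
      · exact congrArg Sum.inr (mul_assoc a.2 b.2 p)

theorem exw_injective : Function.Injective (exw (Z := Z) (K := K) (P := P)) := by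
  intro a b h
  have hs := congrArg Wr.s h
  have hp := congrArg Wr.p h
  refine Prod.ext (Wr.ext (funext fun z => ?_) (Equiv.ext fun z => ?_)) ?_
  · exact congrFun hs (Sum.inl z)
  · exact Sum.inl_injective (Equiv.congr_fun hp (Sum.inl z))
  · have h1 := Sum.inr_injective (Equiv.congr_fun hp (Sum.inr 1))
    change a.2 * 1 = b.2 * 1 at h1
    rwa [mul_one, mul_one] at h1

theorem exw_mem (w : Wr Z K × P) (h1 : w.1 ∈ Nf Z K) (h2 : w.2 = 1) :
    exw w ∈ Nf (Z ⊕ P) K := by
  obtain ⟨hp, hs⟩ := h1
  refine ⟨?_, (hs.image Sum.inl).subset ?_⟩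
  · refine Equiv.ext ?_
    rintro (z | p)
    · exact congrArg Sum.inl (Equiv.congr_fun hp z)
    · change Sum.inr (w.2 * p) = Sum.inr p
      rw [h2, one_mul]
  · rintro (z | p) hx
    · exact ⟨z, hx, rfl⟩
    · exact (hx rfl).elim

/-- The image of a group in the product of an unrestricted wreath product and a group of the class is
in the class if the kernel of the second component is mapped to elements of finite support. -/
theorem range_mem (hC : Closed C) (hE : ExtClosed C) (hK : C K) (hP : C P) {Γ : Type} [Group Γ]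
    (J : Γ →* Wr Z K) (F : Γ →* P) (h : ∀ γ, F γ = 1 → J γ ∈ Nf Z K) :
    C (J.prod F).range := by
  let f0 : (J.prod F).range →* P := (MonoidHom.snd _ _).comp (J.prod F).range.subtype
  refine unr (exw.comp (J.prod F).range.subtype) f0.rangeRestrict ?_ hC hE hK ?_
    f0.rangeRestrict_surjective (of_sub hC _ hP)
  · rintro ⟨_, ⟨γ, rfl⟩⟩ hw
    have h1 : F γ = 1 := congrArg Subtype.val hw
    exact exw_mem _ (h γ h1) h1
  · exact exw_injective.comp (Subgroup.subtype_injective _)

end ext

section hnn

variable {G Q : Type} [Group G] [Group Q] {A B : Subgroup G} {φ : A ≃* B}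
  (f : G →* Q) (hinj : Function.Injective (f.comp A.subtype))

/-- the inverse on the edge group -/
noncomputable def eE : A ≃* (f.comp A.subtype).range := MonoidHom.ofInjective hinj

/-- the first section -/
noncomputable def tau : (f.comp A.subtype).range →* G :=
  A.subtype.comp (eE f hinj).symm.toMonoidHom

variable (φ) in
/-- the second section -/
noncomputable def sig : (f.comp A.subtype).range →* G :=
  (B.subtype.comp φ.toMonoidHom).comp (eE f hinj).symm.toMonoidHom

theorem tau_eE (a : A) : tau f hinj (eE f hinj a) = a := by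
  change ((eE f hinj).symm (eE f hinj a) : G) = a
  rw [MulEquiv.symm_apply_apply]

theorem sig_eE (a : A) : sig φ f hinj (eE f hinj a) = φ a := by
  change (φ ((eE f hinj).symm (eE f hinj a)) : G) = φ a
  rw [MulEquiv.symm_apply_apply]

variable (s : Q) (hs : ∀ a : A, s * f a = f (φ a : G) * s)

/-- the homomorphism to the wreath product -/
noncomputable def Jh : HNNExtension G A B φ →* Wr (Y (f.comp A.subtype).range) G :=
  HNNExtension.lift
    ((L (f.comp A.subtype).range (tau f hinj) (sig φ f hinj)).comp ((MonoidHom.id G).prod f))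
    (L (f.comp A.subtype).range (tau f hinj) (sig φ f hinj) (1, s) * Th _) (by
      intro a
      have h1 := Th_L (f.comp A.subtype).range (tau f hinj) (sig φ f hinj) (eE f hinj a)
      rw [tau_eE, sig_eE] at h1
      have h2 : ((eE f hinj a : (f.comp A.subtype).range) : Q) = f a := rfl
      rw [h2] at h1
      change L _ _ _ (1, s) * Th _ * L _ _ _ ((a : G), f a) =
        L _ _ _ ((φ a : G), f (φ a)) * (L _ _ _ (1, s) * Th _)
      rw [mul_assoc, h1, ← mul_assoc, ← mul_assoc, ← map_mul, ← map_mul]
      congr 2
      refine Prod.ext ?_ (hs a)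
      change 1 * (φ a : G) = (φ a : G) * 1
      rw [one_mul, mul_one])

/-- the homomorphism to the HNN extension of `Q` -/
noncomputable def Fh : HNNExtension G A B φ →*
    HNNExtension Q (f.comp A.subtype).range (f.comp A.subtype).range (MulEquiv.refl _) :=
  HNNExtension.lift (HNNExtension.of.comp f) (HNNExtension.of s * HNNExtension.t) (by
    intro a
    have h1 := HNNExtension.t_mul_of (G := Q) (φ := MulEquiv.refl (f.comp A.subtype).range)
      (eE f hinj a)
    have h2 : ((eE f hinj a : (f.comp A.subtype).range) : Q) = f a := rfl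
    have h3 : (((MulEquiv.refl (f.comp A.subtype).range) (eE f hinj a) :
      (f.comp A.subtype).range) : Q) = f a := rfl
    rw [h2, h3] at h1
    change HNNExtension.of s * HNNExtension.t * HNNExtension.of (f a) =
      HNNExtension.of (f (φ a)) * (HNNExtension.of s * HNNExtension.t)
    rw [mul_assoc, h1, ← mul_assoc, ← mul_assoc, ← map_mul, ← map_mul, hs])

/-- the homomorphism modulo the elements of finite support -/
noncomputable def Dh : HNNExtension Q (f.comp A.subtype).range (f.comp A.subtype).range
    (MulEquiv.refl _) →*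
    Wr (Y (f.comp A.subtype).range) G ⧸ Nf (Y (f.comp A.subtype).range) G :=
  HNNExtension.lift ((QuotientGroup.mk' _).comp
    ((L (f.comp A.subtype).range (tau f hinj) (sig φ f hinj)).comp (MonoidHom.inr G Q)))
    (QuotientGroup.mk' _ (Th _)) (fun e => mk_Th _ _ _ e)

theorem Dh_of (q : Q) : Dh (φ := φ) f hinj (HNNExtension.of q) =
    QuotientGroup.mk' _ (L (f.comp A.subtype).range (tau f hinj) (sig φ f hinj) (1, q)) :=
  HNNExtension.lift_of _ _ _ _

theorem Dh_t : Dh (φ := φ) f hinj HNNExtension.t = QuotientGroup.mk' _ (Th _) :=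
  HNNExtension.lift_t _ _ _

theorem compat : (Dh (φ := φ) f hinj).comp (Fh f hinj s hs) =
    (QuotientGroup.mk' _).comp (Jh f hinj s hs) := by
  refine HNNExtension.hom_ext (MonoidHom.ext fun g => ?_) ?_
  · change Dh f hinj (Fh f hinj s hs (HNNExtension.of g)) =
      QuotientGroup.mk' _ (Jh f hinj s hs (HNNExtension.of g))
    rw [Fh, HNNExtension.lift_of, Jh, HNNExtension.lift_of]
    change Dh f hinj (HNNExtension.of (f g)) = QuotientGroup.mk' _ (L _ _ _ (g, f g))
    rw [Dh_of]
    exact (mk_L _ _ _ g (f g)).symm
  · change Dh f hinj (Fh f hinj s hs HNNExtension.t) =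
      QuotientGroup.mk' _ (Jh f hinj s hs HNNExtension.t)
    rw [Fh, HNNExtension.lift_t, Jh, HNNExtension.lift_t, map_mul, map_mul, Dh_of, Dh_t]

/-- **HNN extensions with a homomorphism to a group of the class which is injective on the edge
group.** -/
theorem hnn_edge (hC : Closed C) (hE : ExtClosed C) (hG : C G) (hQ : C Q)
    (hinj : Function.Injective (f.comp A.subtype)) (s : Q)
    (hs : ∀ a : A, s * f a = f (φ a : G) * s) : C (HNNExtension G A B φ) := by
  have hP : C (HNNExtension Q (f.comp A.subtype).range (f.comp A.subtype).range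
      (MulEquiv.refl _)) :=
    hnn_mem hC hE (MonoidHom.id Q) (fun a b h => h) 1 (fun a => by
      change 1 * (a : Q) = (a : Q) * 1
      rw [one_mul, mul_one]) hQ
  have hW := range_mem hC hE hG hP (Jh f hinj s hs) (Fh f hinj s hs) (fun γ hγ => by
    have h1 := DFunLike.congr_fun (compat f hinj s hs) γ
    change Dh f hinj (Fh f hinj s hs γ) = QuotientGroup.mk' _ (Jh f hinj s hs γ) at h1
    rw [hγ, map_one] at h1
    exact (QuotientGroup.eq_one_iff _).1 h1.symm)
  let r := ((Jh f hinj s hs).prod (Fh f hinj s hs)).rangeRestrict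
  refine hnn_mem hC hE (r.comp HNNExtension.of) ?_ (r HNNExtension.t) (fun a => ?_) hW
  · intro a b hab
    have h1 : Jh f hinj s hs (HNNExtension.of a) = Jh f hinj s hs (HNNExtension.of b) :=
      congrArg (fun w => (Subtype.val w).1) hab
    rw [Jh, HNNExtension.lift_of, HNNExtension.lift_of] at h1
    exact congrArg (fun w => Wr.s w none) h1
  · rw [MonoidHom.comp_apply, MonoidHom.comp_apply, ← map_mul, ← map_mul, HNNExtension.t_mul_of]

end hnn

end Pool.Agent.Q143.EI
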