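import Pool.Agent.Q152.EM.Two
import Pool.Agent.Q105.FJ.Free

/-!
# A homomorphism to an unrestricted wreath product

`Q` is a group, `E` a subgroup, `τ` and `σ` are homomorphisms from `E` to a group `K`. The set `Y` is
the union of a point `none` and of two rays for each coset of `E`. The group `K × Q` acts on `Y`, with
labels in `K`; the label of the point `none` is the first component, the labels on the rays are
given by `τ` and `σ`. The permutation `θ` of `Y` shifts the line which consists of the two rays of
the trivial coset and `none`. It conjugates `(τ e, e)` to `(σ e, e)`.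
-/

set_option autoImplicit false
set_option linter.unusedSectionVars false
set_option linter.style.haveILetI false

namespace Pool.Agent.Q143.EI

open Pool.Agent.Y462.SS Pool.Agent.Q152.WP Pool.Agent.Q105.FJ Pool.Agent.Q152.EM

section rep

variable {Q : Type} [Group Q] (E : Subgroup Q)

open Classical in
/-- representatives of the cosets -/
noncomputable def rep (b : Q ⧸ E) : Q := if b = ((1 : Q) : Q ⧸ E) then 1 else b.out

theorem rep_mk (b : Q ⧸ E) : ((rep E b : Q) : Q ⧸ E) = b := by
  unfold rep
  split_ifs with h
  · exact h.symm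
  · exact Quotient.out_eq' b

theorem rep_one : rep E ((1 : Q) : Q ⧸ E) = 1 := if_pos rfl

theorem kap_mem (q : Q) (b : Q ⧸ E) : (rep E (q • b))⁻¹ * (q * rep E b) ∈ E := by
  rw [← QuotientGroup.eq, rep_mk]
  conv_lhs => rw [← rep_mk E b]
  rfl

/-- the cocycle with values in `E` -/
noncomputable def kap (q : Q) (b : Q ⧸ E) : E := ⟨_, kap_mem E q b⟩

theorem kap_mul (q q' : Q) (b : Q ⧸ E) : kap E (q * q') b = kap E q (q' • b) * kap E q' b := by
  apply Subtype.ext
  change (rep E ((q * q') • b))⁻¹ * (q * q' * rep E b) =
    (rep E (q • q' • b))⁻¹ * (q * rep E (q' • b)) * ((rep E (q' • b))⁻¹ * (q' * rep E b))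
  rw [mul_smul]
  group

theorem kap_one (b : Q ⧸ E) : kap E 1 b = 1 := by
  apply Subtype.ext
  change (rep E ((1 : Q) • b))⁻¹ * (1 * rep E b) = 1
  rw [one_smul, one_mul, inv_mul_cancel]

theorem smul_base (e : E) : (e : Q) • ((1 : Q) : Q ⧸ E) = ((1 : Q) : Q ⧸ E) := by
  change (((e : Q) * 1 : Q) : Q ⧸ E) = _
  rw [QuotientGroup.eq]
  simp

theorem base_eq (e : E) : ((1 : Q) : Q ⧸ E) = ((e : Q) : Q ⧸ E) := by
  rw [QuotientGroup.eq]
  simp

theorem kap_base (e : E) : kap E (e : Q) ((1 : Q) : Q ⧸ E) = e := by
  apply Subtype.ext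
  change (rep E ((e : Q) • ((1 : Q) : Q ⧸ E)))⁻¹ * ((e : Q) * rep E ((1 : Q) : Q ⧸ E)) = e
  rw [smul_base, rep_one, inv_one, one_mul, mul_one]

/-- the set of the labels -/
abbrev Y (E : Subgroup Q) : Type := Option ((Q ⧸ E) × Bool × ℕ)

/-- the permutation of `Y` -/
def pQ (q : Q) : Equiv.Perm (Y E) where
  toFun := Option.map (fun x => (q • x.1, x.2))
  invFun := Option.map (fun x => (q⁻¹ • x.1, x.2))
  left_inv := by
    rintro (_ | ⟨b, c⟩)
    · rfl
    · change some (q⁻¹ • q • b, c) = _
      rw [inv_smul_smul]
  right_inv := by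
    rintro (_ | ⟨b, c⟩)
    · rfl
    · change some (q • q⁻¹ • b, c) = _
      rw [smul_inv_smul]

theorem pQ_none (q : Q) : pQ E q none = none := rfl

theorem pQ_some (q : Q) (b : Q ⧸ E) (c : Bool) (n : ℕ) :
    pQ E q (some (b, c, n)) = some (q • b, c, n) := rfl

open Classical in
/-- the shift -/
noncomputable def thF : Y E → Y E
  | none => some (((1 : Q) : Q ⧸ E), true, 0)
  | some (b, true, n) => if b = ((1 : Q) : Q ⧸ E) then some (b, true, n + 1) else some (b, true, n)
  | some (b, false, 0) => if b = ((1 : Q) : Q ⧸ E) then none else some (b, false, 0)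
  | some (b, false, n + 1) =>
      if b = ((1 : Q) : Q ⧸ E) then some (b, false, n) else some (b, false, n + 1)

open Classical in
/-- the inverse of the shift -/
noncomputable def thI : Y E → Y E
  | none => some (((1 : Q) : Q ⧸ E), false, 0)
  | some (b, false, n) => if b = ((1 : Q) : Q ⧸ E) then some (b, false, n + 1) else some (b, false, n)
  | some (b, true, 0) => if b = ((1 : Q) : Q ⧸ E) then none else some (b, true, 0)
  | some (b, true, n + 1) =>
      if b = ((1 : Q) : Q ⧸ E) then some (b, true, n) else some (b, true, n + 1)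

/-- the shift -/
noncomputable def th : Equiv.Perm (Y E) where
  toFun := thF E
  invFun := thI E
  left_inv := by
    rintro (_ | ⟨b, c, n⟩)
    · simp [thF, thI]
    · by_cases h : b = ((1 : Q) : Q ⧸ E)
      · cases c with
        | true => simp [thF, thI, h]
        | false => cases n with
          | zero => simp [thF, thI, h]
          | succ n => simp [thF, thI, h]
      · cases c with
        | true => cases n with
          | zero => simp [thF, thI, h]
          | succ n => simp [thF, thI, h]
        | false => cases n with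
          | zero => simp [thF, thI, h]
          | succ n => simp [thF, thI, h]
  right_inv := by
    rintro (_ | ⟨b, c, n⟩)
    · simp [thF, thI]
    · by_cases h : b = ((1 : Q) : Q ⧸ E)
      · cases c with
        | true => cases n with
          | zero => simp [thF, thI, h]
          | succ n => simp [thF, thI, h]
        | false => simp [thF, thI, h]
      · cases c with
        | true => cases n with
          | zero => simp [thF, thI, h]
          | succ n => simp [thF, thI, h]
        | false => cases n with
          | zero => simp [thF, thI, h]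
          | succ n => simp [thF, thI, h]

theorem smul_ne (e : E) (b : Q ⧸ E) (h : b ≠ ((1 : Q) : Q ⧸ E)) :
    (e : Q) • b ≠ ((1 : Q) : Q ⧸ E) := by
  intro h1
  refine h ?_
  have h2 := congrArg (fun x => (e : Q)⁻¹ • x) h1
  simp only [inv_smul_smul] at h2
  rw [h2]
  have h3 := smul_base E e⁻¹
  exact h3

theorem th_comm (e : E) : th E * pQ E (e : Q) = pQ E (e : Q) * th E := by
  refine Equiv.ext ?_
  rintro (_ | ⟨b, c, n⟩)
  · change thF E none = pQ E e (thF E none)
    change some _ = some _
    congr 1
    exact Prod.ext (smul_base E e).symm rfl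
  · change thF E (some ((e : Q) • b, c, n)) = pQ E e (thF E (some (b, c, n)))
    by_cases h : b = ((1 : Q) : Q ⧸ E)
    · subst h
      rw [smul_base]
      cases c with
      | true => simpa [thF, pQ_some] using base_eq E e
      | false => cases n with
        | zero => simp [thF, pQ_none]
        | succ n => simpa [thF, pQ_some] using base_eq E e
    · have h' := smul_ne E e b h
      cases c with
      | true => simp [thF, pQ_some, h, h']
      | false => cases n with
        | zero => simp [thF, pQ_some, h, h']
        | succ n => simp [thF, pQ_some, h, h']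

end rep

section lab

variable {Q K : Type} [Group Q] [Group K] (E : Subgroup Q) (τ σ : E →* K)

/-- the labels -/
def lab (c : Bool) : E →* K := if c then τ else σ

/-- the label of the point -/
noncomputable def labf (k : K) (q : Q) : Y E → K
  | none => k
  | some (b, c, _) => lab E τ σ c (kap E q b)

/-- the group `K × Q` acts on `Y` with labels in `K` -/
noncomputable def L : K × Q →* Wr (Y E) K where
  toFun x := ⟨labf E τ σ x.1 x.2, pQ E x.2⟩
  map_one' := by
    refine Wr.ext (funext ?_) (Equiv.ext ?_)
    · rintro (_ | ⟨b, c, n⟩)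
      · rfl
      · change lab E τ σ c (kap E 1 b) = 1
        rw [kap_one, map_one]
    · rintro (_ | ⟨b, c, n⟩)
      · rfl
      · change some ((1 : Q) • b, c, n) = some (b, c, n)
        rw [one_smul]
  map_mul' x y := by
    refine Wr.ext (funext ?_) (Equiv.ext ?_)
    · rintro (_ | ⟨b, c, n⟩)
      · rfl
      · change lab E τ σ c (kap E (x.2 * y.2) b) =
          lab E τ σ c (kap E x.2 (y.2 • b)) * lab E τ σ c (kap E y.2 b)
        rw [kap_mul, map_mul]
    · rintro (_ | ⟨b, c, n⟩)
      · rfl
      · change some ((x.2 * y.2) • b, c, n) = some (x.2 • y.2 • b, c, n)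
        rw [mul_smul]

/-- the shift as an element of the wreath product -/
noncomputable def Th : Wr (Y E) K := ⟨fun _ => 1, th E⟩

theorem L_none (x : K × Q) : (L E τ σ x).s none = x.1 := rfl

/-- the shift conjugates `(τ e, e)` to `(σ e, e)` -/
theorem Th_L (e : E) : Th E * L E τ σ (τ e, (e : Q)) = L E τ σ (σ e, (e : Q)) * Th E := by
  refine Wr.ext (funext ?_) (th_comm E e)
  intro y
  change 1 * labf E τ σ (τ e) e y = labf E τ σ (σ e) e (thF E y) * 1
  rw [one_mul, mul_one]
  rcases y with _ | ⟨b, c, n⟩
  · change τ e = lab E τ σ true (kap E e ((1 : Q) : Q ⧸ E))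
    rw [kap_base]
    rfl
  · by_cases h : b = ((1 : Q) : Q ⧸ E)
    · subst h
      cases c with
      | true => simp [thF, labf]
      | false => cases n with
        | zero =>
          simp only [thF, labf, if_true]
          rw [kap_base]
          rfl
        | succ n => simp [thF, labf]
    · cases c with
      | true => simp [thF, labf, h]
      | false => cases n with
        | zero => simp [thF, labf, h]
        | succ n => simp [thF, labf, h]

theorem L_mem (k : K) : L E τ σ (k, 1) ∈ Nf (Y E) K := by
  refine ⟨?_, (Set.finite_singleton none).subset ?_⟩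
  · refine Equiv.ext ?_
    rintro (_ | ⟨b, c, n⟩)
    · rfl
    · change some ((1 : Q) • b, c, n) = some (b, c, n)
      rw [one_smul]
  · rintro (_ | ⟨b, c, n⟩) hx
    · rfl
    · refine (hx ?_).elim
      change lab E τ σ c (kap E 1 b) = 1
      rw [kap_one, map_one]

theorem mk_L (k : K) (q : Q) : (QuotientGroup.mk' (Nf (Y E) K)) (L E τ σ (k, q)) =
    (QuotientGroup.mk' (Nf (Y E) K)) (L E τ σ (1, q)) := by
  have h1 : (k, q) = ((1 : K), q) * (k, (1 : Q)) := by simp
  rw [h1, map_mul, map_mul]
  have h2 : (QuotientGroup.mk' (Nf (Y E) K)) (L E τ σ (k, 1)) = 1 :=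
    (QuotientGroup.eq_one_iff _).2 (L_mem E τ σ k)
  rw [h2, mul_one]

theorem mk_Th (e : E) : (QuotientGroup.mk' (Nf (Y E) K)) (Th E) *
    (QuotientGroup.mk' (Nf (Y E) K)) (L E τ σ (1, (e : Q))) =
    (QuotientGroup.mk' (Nf (Y E) K)) (L E τ σ (1, (e : Q))) *
      (QuotientGroup.mk' (Nf (Y E) K)) (Th E) := by
  rw [← mk_L E τ σ (τ e) e, ← map_mul, Th_L, map_mul, mk_L, mk_L E τ σ (τ e) e]

end lab

end Pool.Agent.Q143.EI
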